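import Mathlib
import Pool.Agent.Q9.FD.Final
import Pool.Agent.Q9.FD.TaskGauss
import Pool.Agent.Q9.FD.TaskDetCong
import Pool.Agent.Q9.FD.TaskNonres
import Pool.Agent.Q9.FD.TaskRat
import Pool.Agent.Q9.FD.TaskDetProd
import Pool.Agent.Q9.FD.TaskCyc
import Pool.Agent.Q9.FD.TaskIntProd
import Pool.Agent.Q9.FD.TaskTor
import Pool.Agent.Q9.FD.TaskExp
import Pool.Agent.Q9.FD.TaskSign
import Pool.Agent.Q9.FD.TaskAsym
import Pool.Agent.Q9.FD.TaskDetAsm
import Pool.Agent.Q9.FD.TaskLP
import Pool.Agent.Q9.FD.TaskProdLP
import Pool.Agent.Q9.FD.TaskMeanEx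
import Pool.Agent.Q9.FD.TaskInv
import Pool.Agent.Q9.FD.TaskZero
import Pool.Agent.Q9.FD.TaskDense
import Pool.Agent.Q9.FD.TaskQmean
import Pool.Agent.Q9.FD.TaskAbel
import Pool.Agent.Q9.FD.TaskPole
import Pool.Agent.Q9.FD.TaskGcd
import Pool.Agent.Q9.FD.TaskRR
import Pool.Agent.Q9.FD.TaskLam
import Pool.Agent.Q9.FD.TaskFreq

/-!
# Natural boundaries of the zeta functions of FAD-systems

For every FAD-system `(X, f)` the zeta function is root-rational or has the circle `|z| = 1/Λ` as a natural boundary
(Q1, yes; no hyperbolicity and no integrality of the `t_{p,n}` is assumed). The definitions are in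
`Pool/Agent/Q9/FD/Defs.lean`.

Proof. `|det (A^n - 1)| = P(n) D(n)` with `P` periodic (from the eigenvalues which are roots of unity) and
`D(n) = L^n (∏ (2 - 2 Re λ_j^n) + O(κ^n))` an integer combination of powers. So with `Λ = c L` and
`v_n = f_n / Λ^n = G(n) ∏_j (2 - 2 Re λ_j^n) + O(κ^n)`, where `G(n) = P(n) r_n ∏ |n|_p^(s_{p,n}) p^(-t_{p,n}/|n|_p)` is a
uniform limit of periodic sequences whose periods are products of primes dividing a fixed `m`. Moreover
`G(u n) = G(n)` for `u` prime to `m`. Either `G` is periodic, or its frequencies (the rational `x` with mean of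
`G(n) e(-n x)` not `0`) are dense in every interval. By a linear form on `ℝ` over `ℚ` there is a `θ` such that
`v_n e(-n (x + θ))` has the mean `±` the mean of `G(n) e(-n x)`; if the frequencies are dense, the function
`z ζ'/ζ = ∑ f_n z^n` thus has singularities of order one in radial direction in a dense set of points of the circle, which
excludes a continuation (its zeros are isolated). If `G` is periodic, the congruences `f_p ≡ f_1` and
`det (A^p - 1) ≡ det (A - 1)` mod `p` for all large primes `p` show that `c` is rational, hence `G(n)` is rational and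
depends on `gcd (n, M)` only, and `ζ_f` is a product of rational powers of rational functions.
-/

set_option autoImplicit false

open Pool.Agent.Q9.FD

universe u

namespace Pool.Agent.Results.MP_dde008_nt.NaturalBoundary

/-- Every FAD-system whose zeta function is not root-rational has the circle `|z| = 1/Λ` as a natural boundary of its
zeta function. -/
theorem result (X : Type u) (f : X → X) (hf : IsFAD f) (h : ¬ RootRational f) : NaturalBoundary f :=
  Final.main TaskGauss.main TaskDetCong.main TaskNonres.main TaskRat.main
    (TaskDetAsm.main TaskDetProd.main TaskCyc.main TaskIntProd.main TaskTor.main TaskExp.main TaskSign.main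
      TaskAsym.main)
    TaskLP.main TaskProdLP.main TaskMeanEx.main TaskInv.main TaskZero.main TaskDense.main TaskQmean.main
    TaskAbel.main TaskPole.main TaskGcd.main TaskRR.main TaskLam.main TaskFreq.main X f hf h

end Pool.Agent.Results.MP_dde008_nt.NaturalBoundary
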